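import Pool.Agent.helper84.QI.Spec

/-!
# Row qi:QSB: the subgroup `Q`
-/

set_option autoImplicit false

namespace Pool.Agent.QI

theorem QSB_aux {G : Type} [Group G] (δ x : G) (h : (δ⁻¹ * x) * (δ⁻¹ * x) = 1) :
    x * δ⁻¹ = δ * x⁻¹ := by
  have h1 : δ⁻¹ * x = (δ⁻¹ * x)⁻¹ := eq_inv_of_mul_eq_one_left h
  rw [mul_inv_rev, inv_inv] at h1
  -- `δ⁻¹ * x = x⁻¹ * δ`
  have h2 : x = δ * (x⁻¹ * δ) := by rw [← h1, mul_inv_cancel_left]
  calc x * δ⁻¹ = (δ * (x⁻¹ * δ)) * δ⁻¹ := by rw [← h2]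
    _ = δ * x⁻¹ := by group

theorem QSB : QSB_stmt := by
  intro G _ ω
  refine ⟨⟨{ carrier := {q | Qc ω q}
             one_mem' := ?_
             mul_mem' := ?_
             inv_mem' := ?_ }, fun q => Iff.rfl⟩, ?_⟩
  · rintro p q ⟨p', hp⟩ ⟨q', hq⟩
    refine ⟨p' * q', ?_⟩
    filter_upwards [hp, hq] with x h1 h2
    rw [← h1, ← h2]
    group
  · exact ⟨1, Filter.Eventually.of_forall fun x => by group⟩
  · rintro q ⟨q', hq⟩
    refine ⟨q'⁻¹, ?_⟩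
    filter_upwards [hq] with x h1
    rw [← h1]
    group
  · intro δ ε h1 h2
    refine ⟨δ * ε⁻¹, ?_⟩
    filter_upwards [h1, h2] with x hx hy
    have e1 := QSB_aux δ x hx
    have e2 := QSB_aux ε x hy
    have e3 : ε * x⁻¹ = x * ε⁻¹ := e2.symm
    calc x * (δ⁻¹ * ε) * x⁻¹ = (x * δ⁻¹) * (ε * x⁻¹) := by group
      _ = (δ * x⁻¹) * (x * ε⁻¹) := by rw [e1, e3]
      _ = δ * ε⁻¹ := by group

end Pool.Agent.QI
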